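import Pool.Agent.Helper52.SZ.Defs

/-!
# Project SZ, module SZ-7: one round of the partition
-/

set_option autoImplicit false

namespace Pool.Agent.Helper52.SZ

open Combinatorics

section

variable {α : Type} {i : α} {d L : ℕ} {β : ℝ}

/-- The section of a set at a word of the second block. -/
def pst_sec {ι κ' : Type} (e : ι ≃ Fin L ⊕ κ') (E : Set (ι → Option α)) (y : κ' → Option α) :
    Set (Fin L → Option α) := {u | glue e u y ∈ E}

theorem pst_glue_iff {ι κ' : Type} (e : ι ≃ Fin L ⊕ κ') {E : Set (ι → Option α)} (hE : Ins i E)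
    (u : Fin L → Option α) (y : κ' → Option α) :
    glue e u y ∈ E ↔ glue e (inc (rep i u)) (inc (rep i y)) ∈ E := by
  rw [hE, rep_glue, inc_glue]

theorem pst_sec_ins {ι κ' : Type} (e : ι ≃ Fin L ⊕ κ') {E : Set (ι → Option α)} (hE : Ins i E)
    (y : κ' → Option α) : Ins i (pst_sec e E y) := by
  intro u
  change glue e u y ∈ E ↔ glue e (inc (rep i u)) y ∈ E
  rw [pst_glue_iff e hE u y, pst_glue_iff e hE (inc (rep i u)) y, rep_inc]

theorem pst_sec_eq {ι κ' : Type} (e : ι ≃ Fin L ⊕ κ') {E : Set (ι → Option α)} (hE : Ins i E)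
    (y : κ' → Option α) : pst_sec e E (inc (rep i y)) = pst_sec e E y := by
  ext u
  change glue e u (inc (rep i y)) ∈ E ↔ glue e u y ∈ E
  rw [pst_glue_iff e hE u (inc (rep i y)), pst_glue_iff e hE u y, rep_inc]

open Classical in
/-- The subspace removed from a dense insensitive set. -/
noncomputable def pst_rm (i : α) (β : ℝ)
    (hL : ∀ E : Set (Fin L → Option α), Ins i E → β / 2 ≤ dn E →
      ∃ V : Subspace (Fin d) (Option α) (Fin L), ∀ x, V x ∈ E)
    (S : Set (Fin L → Option α)) : Set (Fin L → Option α) :=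
  if h : Ins i S ∧ β / 2 ≤ dn S then Set.range fun x => (hL S h.1 h.2).choose x else ∅

variable (hL : ∀ E : Set (Fin L → Option α), Ins i E → β / 2 ≤ dn E →
      ∃ V : Subspace (Fin d) (Option α) (Fin L), ∀ x, V x ∈ E)

theorem pst_rm_sub (S : Set (Fin L → Option α)) : pst_rm i β hL S ⊆ S := by
  unfold pst_rm
  split
  · rename_i h
    rintro _ ⟨x, rfl⟩
    exact (hL S h.1 h.2).choose_spec x
  · exact Set.empty_subset _

theorem pst_card [Finite α] : (Nat.card (Fin L → Option α) : ℝ) = ((Nat.card α : ℝ) + 1) ^ L := by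
  have := Fintype.ofFinite α
  rw [Nat.card_fun, Nat.card_eq_fintype_card (α := Fin L), Fintype.card_fin,
    Finite.card_option]
  push_cast
  rfl

theorem pst_dn_point [Finite α] (S : Set (Fin L → Option α)) (h : S.Nonempty) :
    1 / ((Nat.card α : ℝ) + 1) ^ L ≤ dn S := by
  rw [dn_eq, pst_card]
  have h1 : 1 ≤ Nat.card S := by
    have : Nonempty S := h.to_subtype
    exact Nat.card_pos
  have h2 : (1 : ℝ) ≤ (Nat.card S : ℝ) := by exact_mod_cast h1
  gcongr

theorem pst_rm_dn [Finite α] [Nonempty α] (S : Set (Fin L → Option α)) (h1 : Ins i S)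
    (h2 : β / 2 ≤ dn S) : 1 / ((Nat.card α : ℝ) + 1) ^ L ≤ dn (pst_rm i β hL S) := by
  apply pst_dn_point
  unfold pst_rm
  rw [dif_pos ⟨h1, h2⟩]
  exact Set.range_nonempty _

theorem pst_inj {η ι β' : Type} (V : Subspace η β' ι) :
    Function.Injective (fun x : η → β' => V x) := by
  intro x y hxy
  funext k
  obtain ⟨j, hj⟩ := V.proper k
  have h := congrFun hxy j
  simpa [Subspace.coe_apply, hj] using h

theorem pst_rm_av [Finite α] [Nonempty α] (S : Set (Fin L → Option α))
    (g : (Fin L → Option α) → ℝ) (hg : Ok d g) :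
    av ((pst_rm i β hL S).indicator g) ≤ 0 := by
  unfold pst_rm
  split
  · rename_i h
    classical
    have := Fintype.ofFinite α
    have h1 := hg (hL S h.1 h.2).choose
    have h2 : (0 : ℝ) < Fintype.card (Fin d → Option α) := by
      exact_mod_cast Fintype.card_pos
    have h3 : (0 : ℝ) < Fintype.card (Fin L → Option α) := by
      exact_mod_cast Fintype.card_pos
    rw [av_eq_sum] at h1 ⊢
    have h4 : ∑ x : Fin d → Option α, g ((hL S h.1 h.2).choose x) ≤ 0 := by
      by_contra hc
      push Not at hc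
      exact absurd h1 (not_le.2 (div_pos hc h2))
    have h5 : ∑ u, (Set.range fun x => (hL S h.1 h.2).choose x).indicator g u =
        ∑ x : Fin d → Option α, g ((hL S h.1 h.2).choose x) := by
      rw [← Finset.sum_image (s := Finset.univ) (g := fun x => (hL S h.1 h.2).choose x) (f := g)
        fun x _ y _ hxy => pst_inj _ hxy]
      rw [Finset.sum_indicator_eq_sum_filter]
      apply Finset.sum_congr _ fun _ _ => rfl
      ext u
      simp
    rw [h5]
    exact div_nonpos_of_nonpos_of_nonneg h4 h3.le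
  · simp [av_zero]

end

theorem part_step {α : Type} [Finite α] [Nonempty α] (i : α) (d : ℕ) (β : ℝ) (hβ : 0 < β)
    (L : ℕ)
    (hL : ∀ E : Set (Fin L → Option α), Ins i E → β / 2 ≤ dn E →
      ∃ V : Subspace (Fin d) (Option α) (Fin L), ∀ x, V x ∈ E)
    {ι κ' : Type} [Finite ι] [Finite κ'] (e : ι ≃ Fin L ⊕ κ')
    {X : Type} [Finite X] [Nonempty X] (E : X → Set (ι → Option α))
    (f : X → (ι → Option α) → ℝ) (hE : ∀ x, Ins i (E x)) (hf : ∀ x w, f x w ≤ 1)
    (hO : ∀ x, Ok d (f x)) (hβE : β ≤ av (fun x => dn (E x))) :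
    ∃ (E' : X × (Fin L → Option α) → Set (κ' → Option α))
      (f' : X × (Fin L → Option α) → (κ' → Option α) → ℝ),
      (∀ p, Ins i (E' p)) ∧ (∀ p w, f' p w ≤ 1) ∧ (∀ p, Ok d (f' p)) ∧
      av (fun x => av ((E x).indicator (f x))) ≤ av (fun p => av ((E' p).indicator (f' p))) ∧
      av (fun p => dn (E' p)) ≤ av (fun x => dn (E x)) - β / 2 / ((Nat.card α : ℝ) + 1) ^ L := by
  classical
  refine ⟨fun p => {y | p.2 ∈ pst_sec e (E p.1) y ∧ p.2 ∉ pst_rm i β hL (pst_sec e (E p.1) y)},
    fun p y => f p.1 (glue e p.2 y), ?_, fun p w => hf _ _, ?_, ?_, ?_⟩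
  · rintro ⟨x, u⟩ y
    change _ ↔ (u ∈ pst_sec e (E x) (inc (rep i y)) ∧
      u ∉ pst_rm i β hL (pst_sec e (E x) (inc (rep i y))))
    rw [pst_sec_eq e (hE x)]
    rfl
  · rintro ⟨x, u⟩ V
    have h := hO x (subR e u V)
    simpa only [subR_apply] using h
  · rw [av_prod]
    refine av_mono fun x => ?_
    rw [av_glue e, av_comm (fun (u : Fin L → Option α) (y : κ' → Option α) =>
      ({y | u ∈ pst_sec e (E x) y ∧ u ∉ pst_rm i β hL (pst_sec e (E x) y)}).indicator
        (fun y => f x (glue e u y)) y)]
    refine av_mono fun y => ?_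
    have e1 : ∀ u, (E x).indicator (f x) (glue e u y) =
        ({y | u ∈ pst_sec e (E x) y ∧ u ∉ pst_rm i β hL (pst_sec e (E x) y)}).indicator
          (fun y => f x (glue e u y)) y +
        (pst_rm i β hL (pst_sec e (E x) y)).indicator (fun u => f x (glue e u y)) u := by
      intro u
      by_cases h1 : u ∈ pst_rm i β hL (pst_sec e (E x) y)
      · have h2 : u ∈ pst_sec e (E x) y := pst_rm_sub hL _ h1
        have h3 : glue e u y ∈ E x := h2
        rw [Set.indicator_of_mem h3, Set.indicator_of_notMem (by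
          rintro ⟨-, h4⟩
          exact h4 h1), Set.indicator_of_mem h1, zero_add]
      · by_cases h2 : u ∈ pst_sec e (E x) y
        · have h3 : glue e u y ∈ E x := h2
          rw [Set.indicator_of_mem h3, Set.indicator_of_mem (show y ∈ {y | u ∈ pst_sec e (E x) y ∧
            u ∉ pst_rm i β hL (pst_sec e (E x) y)} from ⟨h2, h1⟩),
            Set.indicator_of_notMem h1, add_zero]
        · have h3 : glue e u y ∉ E x := h2
          rw [Set.indicator_of_notMem h3, Set.indicator_of_notMem (by
            rintro ⟨h4, -⟩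
            exact h2 h4), Set.indicator_of_notMem h1, add_zero]
    simp only [e1]
    rw [av_add]
    have h5 : av ((pst_rm i β hL (pst_sec e (E x) y)).indicator
        fun u => f x (glue e u y)) ≤ 0 := by
      apply pst_rm_av
      intro V
      have h := hO x (subL e V y)
      simpa only [subL_apply] using h
    have h6 : av (fun u => (pst_rm i β hL (pst_sec e (E x) y)).indicator
        (fun u => f x (glue e u y)) u) ≤ 0 := h5
    linarith
  · -- the densities
    have h1 : ∀ x y, dn (pst_sec e (E x) y \ pst_rm i β hL (pst_sec e (E x) y)) =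
        dn (pst_sec e (E x) y) - dn (pst_rm i β hL (pst_sec e (E x) y)) := by
      intro x y
      rw [dn, dn, dn, ← av_sub]
      congr 1
      funext u
      by_cases h1 : u ∈ pst_rm i β hL (pst_sec e (E x) y)
      · have h2 : u ∈ pst_sec e (E x) y := pst_rm_sub hL _ h1
        simp [h1, h2]
      · by_cases h2 : u ∈ pst_sec e (E x) y <;> simp [h1, h2]
    have h2 : av (fun p : X × (Fin L → Option α) => dn {y | p.2 ∈ pst_sec e (E p.1) y ∧
        p.2 ∉ pst_rm i β hL (pst_sec e (E p.1) y)}) =
        av (fun x => av fun y => dn (pst_sec e (E x) y \ pst_rm i β hL (pst_sec e (E x) y))) := by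
      rw [av_prod]
      congr 1
      funext x
      simp only [dn]
      rw [av_comm]
      rfl
    have h3 : av (fun x => av fun y => dn (pst_sec e (E x) y)) = av (fun x => dn (E x)) := by
      congr 1
      funext x
      rw [dn_glue e]
      rfl
    have h4 : av (fun x => av fun y =>
        dn (pst_sec e (E x) y \ pst_rm i β hL (pst_sec e (E x) y))) =
        av (fun x => dn (E x)) - av (fun x => av fun y =>
          dn (pst_rm i β hL (pst_sec e (E x) y))) := by
      rw [← h3, ← av_sub]
      congr 1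
      funext x
      rw [← av_sub]
      congr 1
      funext y
      exact h1 x y
    rw [h2, h4]
    -- lower bound for the removed part
    have h5 : β / 2 ≤ dn {p : X × (κ' → Option α) | β / 2 ≤ dn (pst_sec e (E p.1) p.2)} := by
      apply dn_ge_of_av_ge (by linarith) fun p => dn_le_one _
      rw [av_prod, h3]
      linarith
    have h6 : β / 2 / ((Nat.card α : ℝ) + 1) ^ L ≤
        av (fun p : X × (κ' → Option α) => dn (pst_rm i β hL (pst_sec e (E p.1) p.2))) := by
      have h7 : ∀ p : X × (κ' → Option α), (1 / ((Nat.card α : ℝ) + 1) ^ L) *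
          ({p : X × (κ' → Option α) | β / 2 ≤ dn (pst_sec e (E p.1) p.2)}.indicator
            (fun _ => (1 : ℝ)) p) ≤ dn (pst_rm i β hL (pst_sec e (E p.1) p.2)) := by
        intro p
        by_cases hp : β / 2 ≤ dn (pst_sec e (E p.1) p.2)
        · rw [Set.indicator_of_mem (show p ∈ {p : X × (κ' → Option α) |
            β / 2 ≤ dn (pst_sec e (E p.1) p.2)} from hp), mul_one]
          exact pst_rm_dn hL _ (pst_sec_ins e (hE p.1) p.2) hp
        · rw [Set.indicator_of_notMem (show p ∉ {p : X × (κ' → Option α) |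
            β / 2 ≤ dn (pst_sec e (E p.1) p.2)} from hp), mul_zero]
          exact dn_nonneg _
      have h8 := av_mono h7
      rw [av_const_mul] at h8
      refine le_trans ?_ h8
      have h9 : (0 : ℝ) < ((Nat.card α : ℝ) + 1) ^ L := by positivity
      rw [div_mul_eq_mul_div, one_mul]
      exact div_le_div_of_nonneg_right h5 h9.le
    rw [av_prod] at h6
    linarith

end Pool.Agent.Helper52.SZ
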